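import Pool.Agent.Helper42.DB.Goals2

set_option autoImplicit false

namespace Pool.Agent.Helper42.DB.PkFLEN

open Set Filter Topology

theorem pair (S : Sys) (δ : ℝ) (hδ : 0 < δ) (i j : S.ι) (hij : i ≠ j) :
    ∃ τ : ℝ, 0 < τ ∧ ∀ u ∈ Icc (S.a i + δ) (S.b i - δ), ∀ v ∈ Icc (S.a j) (S.b j),
      τ ≤ ‖S.g j v - S.g i u‖ := by
  have hc : IsCompact (Icc (S.a i + δ) (S.b i - δ) ×ˢ Icc (S.a j) (S.b j)) :=
    isCompact_Icc.prod isCompact_Icc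
  have hf : ContinuousOn (fun p : ℝ × ℝ => ‖S.g j p.2 - S.g i p.1‖)
      (Icc (S.a i + δ) (S.b i - δ) ×ˢ Icc (S.a j) (S.b j)) := by
    have h1 := (S.crv i).continuous
    have h2 := (S.crv j).continuous
    exact (((h2.comp continuous_snd).sub (h1.comp continuous_fst)).norm).continuousOn
  obtain ⟨τ, hτ, h⟩ := hc.exists_forall_le' hf (a := 0) (by
    rintro ⟨u, v⟩ ⟨hu, hv⟩
    show 0 < ‖S.g j v - S.g i u‖
    rw [norm_pos_iff, sub_ne_zero]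
    intro he
    have hu' : u ∈ Ioo (S.a i) (S.b i) := by
      have hu1 : S.a i + δ ≤ u := hu.1
      have hu2 : u ≤ S.b i - δ := hu.2
      exact ⟨by linarith, by linarith⟩
    exact hij (S.inj i j u hu' v hv he.symm).1)
  exact ⟨τ, hτ, fun u hu v hv => h (u, v) ⟨hu, hv⟩⟩

theorem thm (S : Sys) : G_FLB S → G_FLEN S := by
  intro hFLB δ hδ
  classical
  have hp : ∀ p : S.ι × S.ι, ∃ τ : ℝ, 0 < τ ∧ (p.1 ≠ p.2 →
      ∀ u ∈ Icc (S.a p.1 + δ) (S.b p.1 - δ), ∀ v ∈ Icc (S.a p.2) (S.b p.2),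
      τ ≤ ‖S.g p.2 v - S.g p.1 u‖) := by
    rintro ⟨i, j⟩
    by_cases hij : i = j
    · exact ⟨1, one_pos, fun h => absurd hij h⟩
    · obtain ⟨τ, h1, h2⟩ := pair S δ hδ i j hij
      exact ⟨τ, h1, fun _ => h2⟩
  choose τ hτ h using hp
  obtain ⟨t, ht0, ht⟩ : ∃ t : ℝ, 0 < t ∧ ∀ p, t ≤ τ p := by
    rcases isEmpty_or_nonempty (S.ι × S.ι) with he | hne
    · exact ⟨1, one_pos, fun p => he.elim p⟩
    · refine ⟨Finset.univ.inf' Finset.univ_nonempty τ, ?_, fun p =>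
        Finset.inf'_le τ (Finset.mem_univ p)⟩
      rw [Finset.lt_inf'_iff]
      exact fun p _ => hτ p
  refine ⟨t, ht0, fun x y hxy hor => ?_⟩
  have hne := hFLB.1 x y hxy
  rcases hor with hu | hv
  · exact (ht (x.i, y.i)).trans (h (x.i, y.i) hne x.u ⟨hu.1, hu.2⟩ y.u
      (Ioo_subset_Icc_self hxy.2.1.1))
  · have h1 := (ht (y.i, x.i)).trans (h (y.i, x.i) hne.symm y.u ⟨hv.1, hv.2⟩ x.u
      (Ioo_subset_Icc_self hxy.1.1))
    refine h1.trans_eq ?_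
    show ‖x.pos - y.pos‖ = ‖y.pos - x.pos‖
    exact norm_sub_rev _ _

end Pool.Agent.Helper42.DB.PkFLEN
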