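import Pool.Agent.Helper42.DB.Goals2

set_option autoImplicit false

namespace Pool.Agent.Helper42.DB.PkHMONO

open Set Filter Topology

theorem der_re (c : Crv) (ν0 Δ s : ℝ) :
    HasDerivAt (fun s : ℝ => (c.G (ν0 + s * Δ)).re)
      (-(c.R (ν0 + s * Δ) * Real.sin (ν0 + s * Δ)) * Δ) s := by
  have hν : HasDerivAt (fun s : ℝ => ν0 + s * Δ) Δ s := by
    simpa using ((hasDerivAt_id s).mul_const Δ).const_add ν0
  have h1 := HasDerivAt.scomp s (c.der (ν0 + s * Δ)) hν
  have h2 := Complex.reCLM.hasFDerivAt.comp_hasDerivAt s h1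
  have h3 : HasDerivAt (fun s : ℝ => (c.G (ν0 + s * Δ)).re)
      (Complex.reCLM (Δ • (c.R (ν0 + s * Δ) • tt (ν0 + s * Δ)))) s := h2
  convert h3 using 1
  simp
  ring

theorem der_im (c : Crv) (ν0 Δ s : ℝ) :
    HasDerivAt (fun s : ℝ => (c.G (ν0 + s * Δ)).im)
      ((c.R (ν0 + s * Δ) * Real.cos (ν0 + s * Δ)) * Δ) s := by
  have hν : HasDerivAt (fun s : ℝ => ν0 + s * Δ) Δ s := by
    simpa using ((hasDerivAt_id s).mul_const Δ).const_add ν0
  have h1 := HasDerivAt.scomp s (c.der (ν0 + s * Δ)) hν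
  have h2 := Complex.imCLM.hasFDerivAt.comp_hasDerivAt s h1
  have h3 : HasDerivAt (fun s : ℝ => (c.G (ν0 + s * Δ)).im)
      (Complex.imCLM (Δ • (c.R (ν0 + s * Δ) • tt (ν0 + s * Δ)))) s := h2
  convert h3 using 1
  simp
  ring

theorem der_H (c : Crv) (η C ν0 Δ θ0 E s : ℝ) (hD : Real.cos (θ0 + s * E - η) ≠ 0) :
    HasDerivAt (fun s : ℝ => (Real.cos (θ0 + s * E) * ((c.G (ν0 + s * Δ)).im - C * Real.sin η)
      - Real.sin (θ0 + s * E) * ((c.G (ν0 + s * Δ)).re - C * Real.cos η))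
        / Real.cos (θ0 + s * E - η))
      ((Δ * c.R (ν0 + s * Δ) * Real.cos (ν0 + s * Δ - (θ0 + s * E))
        * Real.cos (θ0 + s * E - η) + E * (C - dt (ee η) (c.G (ν0 + s * Δ))))
        / Real.cos (θ0 + s * E - η) ^ 2) s := by
  have hθ : HasDerivAt (fun s : ℝ => θ0 + s * E) E s := by
    simpa using ((hasDerivAt_id s).mul_const E).const_add θ0
  have hc : HasDerivAt (fun s : ℝ => Real.cos (θ0 + s * E)) (-Real.sin (θ0 + s * E) * E) s :=
    hθ.cos
  have hs : HasDerivAt (fun s : ℝ => Real.sin (θ0 + s * E)) (Real.cos (θ0 + s * E) * E) s :=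
    hθ.sin
  have hd : HasDerivAt (fun s : ℝ => Real.cos (θ0 + s * E - η))
      (-Real.sin (θ0 + s * E - η) * E) s := (hθ.sub_const η).cos
  have hN := (hc.mul ((der_im c ν0 Δ s).sub_const (C * Real.sin η))).sub
    (hs.mul ((der_re c ν0 Δ s).sub_const (C * Real.cos η)))
  have hH := hN.div hd hD
  refine hH.congr_deriv ?_
  congr 1
  simp only [dt, ee_re, ee_im, Pi.sub_apply, Pi.mul_apply]
  generalize (c.G (ν0 + s * Δ)).re = x
  generalize (c.G (ν0 + s * Δ)).im = y
  generalize c.R (ν0 + s * Δ) = R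
  generalize ν0 + s * Δ = ν
  generalize θ0 + s * E = θ
  rw [Real.cos_sub ν θ, Real.cos_sub θ η, Real.sin_sub θ η]
  have h1 := Real.sin_sq_add_cos_sq θ
  have h2 := Real.sin_sq_add_cos_sq η
  linear_combination (-(E * (Real.sin η * y + Real.cos η * x
    - C * (Real.sin η ^ 2 + Real.cos η ^ 2)))) * h1 + (E * C) * h2

theorem thm : G_HMONO := by
  intro c η C ν0 ν1 θ0 θ1 hν hθ h0 h1 h2 h3 hC
  set Δ : ℝ := ν1 - ν0 with hΔ
  set E : ℝ := θ1 - θ0 with hE
  have hΔ0 : 0 ≤ Δ := by linarith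
  have hE0 : 0 ≤ E := by linarith
  set H : ℝ → ℝ := fun s : ℝ => (Real.cos (θ0 + s * E) *
      ((c.G (ν0 + s * Δ)).im - C * Real.sin η)
      - Real.sin (θ0 + s * E) * ((c.G (ν0 + s * Δ)).re - C * Real.cos η))
        / Real.cos (θ0 + s * E - η) with hH
  have hD : ∀ s ∈ Icc (0 : ℝ) 1, 0 < Real.cos (θ0 + s * E - η) := by
    intro s hs
    have a1 := abs_lt.1 h2
    have a2 := abs_lt.1 h3
    apply Real.cos_pos_of_mem_Ioo
    have e : θ0 + s * E - η = (1 - s) * (θ0 - η) + s * (θ1 - η) := by rw [hE]; ring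
    rw [e]
    have hs0 : 0 ≤ 1 - s := by linarith [hs.2]
    have hs1 : 0 ≤ s := hs.1
    have hpi := Real.pi_pos
    rcases eq_or_lt_of_le hs1 with hs2 | hs2
    · subst hs2; constructor
      · linarith [a1.1]
      · linarith [a1.2]
    · constructor
      · nlinarith [a1.1, a2.1, mul_nonneg hs0 (by linarith [a1.1] : 0 ≤ (θ0 - η) + Real.pi / 2),
          mul_pos hs2 (by linarith [a2.1] : 0 < (θ1 - η) + Real.pi / 2)]
      · nlinarith [a1.1, a2.1, mul_nonneg hs0 (by linarith [a1.2] : 0 ≤ Real.pi / 2 - (θ0 - η)),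
          mul_pos hs2 (by linarith [a2.2] : 0 < Real.pi / 2 - (θ1 - η))]
  have hder : ∀ s ∈ Icc (0 : ℝ) 1, HasDerivAt H
      ((Δ * c.R (ν0 + s * Δ) * Real.cos (ν0 + s * Δ - (θ0 + s * E))
        * Real.cos (θ0 + s * E - η) + E * (C - dt (ee η) (c.G (ν0 + s * Δ))))
        / Real.cos (θ0 + s * E - η) ^ 2) s := fun s hs =>
    der_H c η C ν0 Δ θ0 E s (hD s hs).ne'
  have hcont : ContinuousOn H (Icc 0 1) := fun s hs =>
    (hder s hs).continuousAt.continuousWithinAt
  have hin : ∀ s ∈ Icc (0 : ℝ) 1, ν0 + s * Δ ∈ Icc ν0 ν1 := by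
    intro s hs
    constructor
    · nlinarith [mul_nonneg hs.1 hΔ0]
    · nlinarith [mul_nonneg (by linarith [hs.2] : 0 ≤ 1 - s) hΔ0]
  have hcos : ∀ s ∈ Icc (0 : ℝ) 1, 0 ≤ Real.cos (ν0 + s * Δ - (θ0 + s * E)) := by
    intro s hs
    have a1 := abs_le.1 h0
    have a2 := abs_le.1 h1
    apply Real.cos_nonneg_of_mem_Icc
    have e : ν0 + s * Δ - (θ0 + s * E) = -((1 - s) * (θ0 - ν0) + s * (θ1 - ν1)) := by
      rw [hE, hΔ]; ring
    rw [e]
    have hs0 : 0 ≤ 1 - s := by linarith [hs.2]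
    have hs1 : 0 ≤ s := hs.1
    constructor
    · nlinarith [mul_nonneg hs0 (by linarith [a1.2] : 0 ≤ Real.pi / 2 - (θ0 - ν0)),
          mul_nonneg hs1 (by linarith [a2.2] : 0 ≤ Real.pi / 2 - (θ1 - ν1))]
    · nlinarith [mul_nonneg hs0 (by linarith [a1.1] : 0 ≤ (θ0 - ν0) + Real.pi / 2),
          mul_nonneg hs1 (by linarith [a2.1] : 0 ≤ (θ1 - ν1) + Real.pi / 2)]
  have hH0 : H 0 = cr (ee θ0) (c.G ν0 - C • ee η) / Real.cos (θ0 - η) := by
    simp [hH, cr]
  have hH1 : H 1 = cr (ee θ1) (c.G ν1 - C • ee η) / Real.cos (θ1 - η) := by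
    simp only [hH, cr, one_mul]
    rw [show θ0 + E = θ1 by rw [hE]; ring, show ν0 + Δ = ν1 by rw [hΔ]; ring]
    simp
  rw [← hH0, ← hH1]
  have hint : interior (Icc (0 : ℝ) 1) = Ioo 0 1 := interior_Icc
  constructor
  · have hm : MonotoneOn H (Icc 0 1) := by
      apply monotoneOn_of_deriv_nonneg (convex_Icc 0 1) hcont
      · intro s hs
        rw [hint] at hs
        exact (hder s (Ioo_subset_Icc_self hs)).differentiableAt.differentiableWithinAt
      · intro s hs
        rw [hint] at hs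
        have hs' := Ioo_subset_Icc_self hs
        rw [(hder s hs').deriv]
        have b1 := hD s hs'
        have b2 := hcos s hs'
        have b3 := hC _ (hin s hs')
        have b4 := c.nonneg (ν0 + s * Δ)
        apply div_nonneg _ (sq_nonneg _)
        apply add_nonneg
        · positivity
        · exact mul_nonneg hE0 (by linarith)
    exact hm (left_mem_Icc.2 zero_le_one) (right_mem_Icc.2 zero_le_one) zero_le_one
  · intro hor
    have hm : StrictMonoOn H (Icc 0 1) := by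
      apply strictMonoOn_of_deriv_pos (convex_Icc 0 1) hcont
      intro s hs
      rw [hint] at hs
      have hs' := Ioo_subset_Icc_self hs
      rw [(hder s hs').deriv]
      have b1 := hD s hs'
      have b2 := hcos s hs'
      have b3 := hC _ (hin s hs')
      have b4 := c.nonneg (ν0 + s * Δ)
      apply div_pos _ (by positivity)
      rcases hor with hor | ⟨o1, o2, o3, o4⟩
      · apply add_pos_of_nonneg_of_pos
        · positivity
        · exact mul_pos (by linarith) (by linarith)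
      · have b5 : 0 < Real.cos (ν0 + s * Δ - (θ0 + s * E)) := by
          have a1 := abs_lt.1 o3
          have a2 := abs_lt.1 o4
          apply Real.cos_pos_of_mem_Ioo
          have e : ν0 + s * Δ - (θ0 + s * E) = -((1 - s) * (θ0 - ν0) + s * (θ1 - ν1)) := by
            rw [hE, hΔ]; ring
          rw [e]
          have hs0 : 0 < 1 - s := by linarith [hs.2]
          have hs1 : 0 < s := hs.1
          constructor
          · nlinarith [mul_pos hs0 (by linarith [a1.2] : 0 < Real.pi / 2 - (θ0 - ν0)),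
              mul_pos hs1 (by linarith [a2.2] : 0 < Real.pi / 2 - (θ1 - ν1))]
          · nlinarith [mul_pos hs0 (by linarith [a1.1] : 0 < (θ0 - ν0) + Real.pi / 2),
              mul_pos hs1 (by linarith [a2.1] : 0 < (θ1 - ν1) + Real.pi / 2)]
        have b6 := o2 (ν0 + s * Δ)
        have b7 : 0 < Δ := by linarith
        apply add_pos_of_pos_of_nonneg
        · positivity
        · exact mul_nonneg hE0 (by linarith)
    exact hm (left_mem_Icc.2 zero_le_one) (right_mem_Icc.2 zero_le_one) zero_lt_one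

end Pool.Agent.Helper42.DB.PkHMONO
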