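import Pool.Agent.Helper42.DB.Goals2

set_option autoImplicit false

namespace Pool.Agent.Helper42.DB.PkPERU

open Set Filter Topology

theorem thm (S : Sys) : G_ARC S → G_FLB S → G_FLE S → G_BNE S → G_PERU S := by
  intro hARC hFLB hFLE hBNE n z z' hn hz hz' hper hper' hi
  have hP : Function.Periodic z n := fun k => hper k
  have hP' : Function.Periodic z' n := fun k => hper' k
  have hik : ∀ k, (z k).i = (z' k).i := by
    intro k
    rw [← hP.map_mod_nat k, ← hP'.map_mod_nat k]
    exact hi _ (Nat.mod_lt _ hn)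
  have hκ : 0 < S.κ := (hARC (z 0).i).1
  have hok : ∀ k, (z k).Ok := fun k => (hz k).1
  have hok' : ∀ k, (z' k).Ok := fun k => (hz' k).1
  have hlen : ∀ k, 0 < len (z k) (z (k + 1)) := fun k => (hz k).length.1
  have hlen' : ∀ k, 0 < len (z' k) (z' (k + 1)) := fun k => (hz' k).length.1
  have hstep : ∀ k, Em (z k) (z' k)
      + 2 * S.κ * (Real.cos (z k).φ + Real.cos (z' k).φ) * ‖(z' k).pos - (z k).pos‖ ^ 2
      + (len (z k) (z (k + 1)) + len (z' k) (z' (k + 1))) *
        (1 - Real.cos ((z' k).th - (z k).th)) ≤ Em (z (k + 1)) (z' (k + 1)) := by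
    intro k
    have h1 := hFLE _ _ _ _ (hz k) (hz' k)
    have h2 := hBNE _ _ (hik k) (hok k) (hok' k)
    linarith
  have hA : ∀ k, 0 ≤ 2 * S.κ * (Real.cos (z k).φ + Real.cos (z' k).φ) *
      ‖(z' k).pos - (z k).pos‖ ^ 2 := by
    intro k
    have h1 := (hok k).cos_pos
    have h2 := (hok' k).cos_pos
    positivity
  have hB : ∀ k, 0 ≤ (len (z k) (z (k + 1)) + len (z' k) (z' (k + 1))) *
        (1 - Real.cos ((z' k).th - (z k).th)) := by
    intro k
    have h1 := hlen k
    have h2 := hlen' k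
    have h3 := Real.cos_le_one ((z' k).th - (z k).th)
    exact mul_nonneg (by linarith) (by linarith)
  have hmono : ∀ k, Em (z 1) (z' 1) ≤ Em (z (k + 1)) (z' (k + 1)) := by
    intro k
    induction k with
    | zero => exact le_rfl
    | succ k ih =>
      have h1 := hstep (k + 1)
      have h2 := hA (k + 1)
      have h3 := hB (k + 1)
      linarith
  have hn1 : Em (z n) (z' n) = Em (z 0) (z' 0) := by
    have h1 := hper 0
    have h2 := hper' 0
    rw [Nat.zero_add] at h1 h2
    rw [h1, h2]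
  have h0 := hstep 0
  have hm := hmono (n - 1)
  rw [Nat.sub_add_cancel hn, hn1] at hm
  rw [Nat.zero_add] at h0
  have hA0 := hA 0
  have hB0 := hB 0
  rw [Nat.zero_add] at hB0
  have hA1 : 2 * S.κ * (Real.cos (z 0).φ + Real.cos (z' 0).φ) *
      ‖(z' 0).pos - (z 0).pos‖ ^ 2 = 0 := by linarith
  have hB1 : (len (z 0) (z 1) + len (z' 0) (z' 1)) *
        (1 - Real.cos ((z' 0).th - (z 0).th)) = 0 := by linarith
  have hc : 0 < Real.cos (z 0).φ + Real.cos (z' 0).φ :=
    add_pos (hok 0).cos_pos (hok' 0).cos_pos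
  have hpos : (z' 0).pos = (z 0).pos := by
    rcases mul_eq_zero.1 hA1 with h | h
    · exfalso
      have : 0 < 2 * S.κ * (Real.cos (z 0).φ + Real.cos (z' 0).φ) := by positivity
      exact this.ne' h
    · have h1 : ‖(z' 0).pos - (z 0).pos‖ = 0 := by simpa using h
      exact sub_eq_zero.1 (norm_eq_zero.1 h1)
  have hcos : Real.cos ((z' 0).th - (z 0).th) = 1 := by
    rcases mul_eq_zero.1 hB1 with h | h
    · exfalso
      have h1 := hlen 0
      have h2 := hlen' 0
      rw [Nat.zero_add] at h1 h2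
      linarith
    · linarith
  have hu : (z 0).u = (z' 0).u := by
    refine (S.inj (z 0).i (z 0).i (z 0).u (hok 0).1 (z' 0).u ?_ ?_).2
    · have := (hok' 0).1
      rw [← hik 0] at this
      exact Ioo_subset_Icc_self this
    · have h1 : S.g (z' 0).i (z' 0).u = S.g (z 0).i (z 0).u := hpos
      rw [← hik 0] at h1
      exact h1.symm
  have hφ : (z 0).φ = (z' 0).φ := by
    have h1 : (z' 0).th - (z 0).th = (z' 0).φ - (z 0).φ := by
      unfold St.th
      rw [hu]
      ring
    rw [h1] at hcos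
    have h2 := abs_lt.1 (hok 0).2
    have h3 := abs_lt.1 (hok' 0).2
    have hpi := Real.pi_pos
    have h4 := (Real.cos_eq_one_iff_of_lt_of_lt (x := (z' 0).φ - (z 0).φ)
      (by linarith [h2.1, h2.2, h3.1, h3.2]) (by linarith [h2.1, h2.2, h3.1, h3.2])).1 hcos
    linarith
  have hz0 : z 0 = z' 0 := St.ext (hik 0) hu hφ
  funext k
  induction k with
  | zero => exact hz0
  | succ k ih =>
    have h1 := hz k
    have h2 := hz' k
    rw [← ih] at h2
    exact hFLB.2.2 _ _ _ h1 h2

end Pool.Agent.Helper42.DB.PkPERU
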